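import Pool.Agent.V11230.DSep2
import Pool.Agent.NPC.Dec

/-!
# Dual Separator for Two Terminals is W[1]-hard

A reduction from Clique parameterized by the size `k` of the clique, with the new parameter `k²`.
For `i, j < k` and allowed pairs `(u, v)` of vertices of the source graph there is a vertex
`(i, j, u, v)`.  In the red graph the row `i` is a chain of bundles, one for each `u`; the bundle `u`
consists of `k` parallel paths, one for each `j`, through the vertices `(i, j, u, ·)`, and the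
junctions between the bundles have `k² + 1` copies.  So a separator of size `k²` contains exactly one
vertex `(i, j, u, v)` for each `(i, j)`, and `u` depends only on `i`.  The blue graph is the same with
rows and columns exchanged, so `v` depends only on `j`.
-/

set_option autoImplicit false

namespace Pool.Agent.NPC.V11230.DSA

open Pool.Agent.NPC Pool.Agent.V11230.DS Pool.Agent.H622R2

/-- an instance of Clique: matrix and size -/
abbrev Src : Type := List (List Bool) × ℕ

/-- number of vertices -/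
def nS (z : Src) : ℕ := z.1.length

/-- the smaller one of `k` and the number of vertices -/
def kS (z : Src) : ℕ := min z.2 z.1.length

/-- the constructed instance -/
def inst (z : Src) : List (List ℕ) × ℕ × ℕ × ℕ :=
  (if z.2 ≤ z.1.length then cmat (verts (nS z) (kS z) (ed z.1)) (col (nS z)) else [[0, 1], [1, 0]],
    0, 1, z.2 * z.2)

section
variable {α : Type} [TEnc α] {z : α → Src} {x y : α → Lab}

theorem upoly_nS (hz : Poly z) : UPoly (fun a => nS (z a)) := UPoly.length (Poly.fst hz)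

theorem upoly_kS (hz : Poly z) : UPoly (fun a => kS (z a)) :=
  UPoly.of_le (Poly.min (Poly.snd hz) (Poly.length (Poly.fst hz))) (upoly_nS hz)
    (fun _ => min_le_right _ _)

theorem poly_ed (hz : Poly z) {u v : α → ℕ} (hu : Poly u) (hv : Poly v) :
    Poly (fun a => ed (z a).1 (u a) (v a)) :=
  Poly.and (Poly.not (Poly.decide_eq hu hv)) (Poly.or
    (Poly.getD (Poly.getD (Poly.fst hz) hu (Poly.const [])) hv (Poly.const false))
    (Poly.getD (Poly.getD (Poly.fst hz) hv (Poly.const [])) hu (Poly.const false)))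

theorem p1 (hx : Poly x) : Poly (fun a => (x a).1) := Poly.fst hx
theorem p2 (hx : Poly x) : Poly (fun a => (x a).2.1) := Poly.fst (Poly.snd hx)
theorem p3 (hx : Poly x) : Poly (fun a => (x a).2.2.1) := Poly.fst (Poly.snd (Poly.snd hx))
theorem p4 (hx : Poly x) : Poly (fun a => (x a).2.2.2.1) :=
  Poly.fst (Poly.snd (Poly.snd (Poly.snd hx)))
theorem p5 (hx : Poly x) : Poly (fun a => (x a).2.2.2.2.1) :=
  Poly.fst (Poly.snd (Poly.snd (Poly.snd (Poly.snd hx))))
theorem p6 (hx : Poly x) : Poly (fun a => (x a).2.2.2.2.2) :=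
  Poly.snd (Poly.snd (Poly.snd (Poly.snd (Poly.snd hx))))

theorem pe {u : α → ℕ} (hu : Poly u) (m : ℕ) : Poly (fun a => decide (u a = m)) :=
  Poly.decide_eq hu (Poly.const m)

theorem poly_okp (hz : Poly z) (hx : Poly x) : Poly (fun a => okp (ed (z a).1) (x a).2.1
    (x a).2.2.1 (x a).2.2.2.1 (x a).2.2.2.2.1) :=
  Poly.ite (Poly.decide_eq (p2 hx) (p3 hx)) (Poly.decide_eq (p4 hx) (p5 hx))
    (poly_ed hz (p4 hx) (p5 hx))

theorem poly_valid (hz : Poly z) (hx : Poly x) :
    Poly (fun a => valid (nS (z a)) (kS (z a)) (ed (z a).1) (x a)) := by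
  have hn := (upoly_nS hz).toPoly
  have hk := (upoly_kS hz).toPoly
  have hkk := Poly.mul hk hk
  exact Poly.or (Poly.or
    (Poly.and (Poly.and (Poly.and (Poly.and (Poly.and (pe (p1 hx) 2) (Poly.decide_lt (p2 hx) hk))
      (pe (p3 hx) 0)) (Poly.decide_le (p4 hx) hn)) (pe (p5 hx) 0)) (Poly.decide_le (p6 hx) hkk))
    (Poly.and (Poly.and (Poly.and (Poly.and (Poly.and (pe (p1 hx) 3) (pe (p2 hx) 0))
      (Poly.decide_lt (p3 hx) hk)) (pe (p4 hx) 0)) (Poly.decide_le (p5 hx) hn))
      (Poly.decide_le (p6 hx) hkk)))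
    (Poly.and (Poly.and (Poly.and (Poly.and (Poly.and (pe (p1 hx) 4) (Poly.decide_lt (p2 hx) hk))
      (Poly.decide_lt (p3 hx) hk)) (Poly.decide_lt (p4 hx) hn)) (Poly.decide_lt (p5 hx) hn))
      (Poly.ite (Poly.decide_bool (poly_okp hz hx)) (pe (p6 hx) 0) (Poly.decide_le (p6 hx) hkk)))

theorem poly_rr (hz : Poly z) (hx : Poly x) (hy : Poly y) :
    Poly (fun a => rr (nS (z a)) (x a) (y a)) := by
  have hn := (upoly_nS hz).toPoly
  have h1 := Poly.const (α := α) (1 : ℕ)
  exact Poly.or (Poly.or (Poly.or (Poly.or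
    (Poly.and (Poly.and (pe (p1 hx) 0) (pe (p1 hy) 2)) (pe (p4 hy) 0))
    (Poly.and (Poly.and (Poly.and (Poly.and (pe (p1 hx) 2) (pe (p1 hy) 4))
      (Poly.decide_eq (p2 hx) (p2 hy))) (Poly.decide_eq (p4 hx) (p4 hy))) (pe (p5 hy) 0)))
    (Poly.and (Poly.and (Poly.and (Poly.and (Poly.and (pe (p1 hx) 4) (pe (p1 hy) 4))
      (Poly.decide_eq (p2 hx) (p2 hy))) (Poly.decide_eq (p3 hx) (p3 hy)))
      (Poly.decide_eq (p4 hx) (p4 hy))) (Poly.decide_eq (Poly.add (p5 hx) h1) (p5 hy))))
    (Poly.and (Poly.and (Poly.and (Poly.and (pe (p1 hx) 4) (pe (p1 hy) 2))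
      (Poly.decide_eq (p2 hx) (p2 hy))) (Poly.decide_eq (Poly.add (p4 hx) h1) (p4 hy)))
      (Poly.decide_eq (Poly.add (p5 hx) h1) hn)))
    (Poly.and (Poly.and (pe (p1 hx) 2) (pe (p1 hy) 1)) (Poly.decide_eq (p4 hx) hn))

theorem poly_sw (hx : Poly x) : Poly (fun a => sw (x a)) :=
  Poly.pair (Poly.ite (pe (p1 hx) 2) (Poly.const 3) (Poly.ite (pe (p1 hx) 3) (Poly.const 2)
    (p1 hx))) (Poly.pair (p3 hx) (Poly.pair (p2 hx) (Poly.pair (p5 hx) (Poly.pair (p4 hx)
      (p6 hx)))))

theorem poly_red (hz : Poly z) (hx : Poly x) (hy : Poly y) :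
    Poly (fun a => red (nS (z a)) (x a) (y a)) := Poly.or (poly_rr hz hx hy) (poly_rr hz hy hx)

theorem poly_col (hz : Poly z) (hx : Poly x) (hy : Poly y) :
    Poly (fun a => col (nS (z a)) (x a) (y a)) :=
  Poly.ite (Poly.decide_bool (poly_red hz hx hy)) (Poly.const 1)
    (Poly.ite (Poly.decide_bool (poly_red hz (poly_sw hx) (poly_sw hy))) (Poly.const 2)
      (Poly.const 0))

end

theorem poly_verts : Poly (fun z : Src => verts (nS z) (kS z) (ed z.1)) := by
  have hid : Poly (fun z : Src => z) := Poly.id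
  have c1 : ∀ {β : Type} [TEnc β] {f : β → Src}, Poly f → Poly (fun z : β × ℕ => f z.1) :=
    fun hf => hf.comp (Poly.fst Poly.id)
  have g1 := c1 hid
  have g2 := c1 g1
  have g3 := c1 g2
  have g4 := c1 g3
  have g5 := c1 g4
  have g6 := c1 g5
  have hlab : Poly (fun w : (((((Src × ℕ) × ℕ) × ℕ) × ℕ) × ℕ) × ℕ =>
      ((w.1.1.1.1.1.2, w.1.1.1.1.2, w.1.1.1.2, w.1.1.2, w.1.2, w.2) : Lab)) := by
    have h0 : Poly (fun w : (((((Src × ℕ) × ℕ) × ℕ) × ℕ) × ℕ) × ℕ => w) := Poly.id
    have h1 := Poly.fst h0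
    have h2 := Poly.fst h1
    have h3 := Poly.fst h2
    have h4 := Poly.fst h3
    have h5 := Poly.fst h4
    exact Poly.pair (Poly.snd h5) (Poly.pair (Poly.snd h4) (Poly.pair (Poly.snd h3)
      (Poly.pair (Poly.snd h2) (Poly.pair (Poly.snd h1) (Poly.snd h0)))))
  -- innermost list
  have l5 : Poly (fun w : ((((Src × ℕ) × ℕ) × ℕ) × ℕ) × ℕ =>
      ((List.range (kS w.1.1.1.1.1 * kS w.1.1.1.1.1 + 1)).map (fun c =>
        ((w.1.1.1.1.2, w.1.1.1.2, w.1.1.2, w.1.2, w.2, c) : Lab))).filter
        (valid (nS w.1.1.1.1.1) (kS w.1.1.1.1.1) (ed w.1.1.1.1.1.1))) := by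
    refine Poly.filter (p := fun (w : ((((Src × ℕ) × ℕ) × ℕ) × ℕ) × ℕ) (y : Lab) =>
      valid (nS w.1.1.1.1.1) (kS w.1.1.1.1.1) (ed w.1.1.1.1.1.1) y) ?_ ?_
    · exact Poly.map (F := fun (w : ((((Src × ℕ) × ℕ) × ℕ) × ℕ) × ℕ) c =>
        ((w.1.1.1.1.2, w.1.1.1.2, w.1.1.2, w.1.2, w.2, c) : Lab))
        (UPoly.add (UPoly.mul (upoly_kS g5) (upoly_kS g5)) (UPoly.const 1)).range hlab
    · exact poly_valid (z := fun w : (((((Src × ℕ) × ℕ) × ℕ) × ℕ) × ℕ) × Lab => w.1.1.1.1.1.1)
        (g5.comp (Poly.fst Poly.id)) (Poly.snd Poly.id)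
  have l4 : Poly (fun w : (((Src × ℕ) × ℕ) × ℕ) × ℕ =>
      (List.range (nS w.1.1.1.1 + 1)).flatMap fun v =>
      ((List.range (kS w.1.1.1.1 * kS w.1.1.1.1 + 1)).map (fun c =>
        ((w.1.1.1.2, w.1.1.2, w.1.2, w.2, v, c) : Lab))).filter
        (valid (nS w.1.1.1.1) (kS w.1.1.1.1) (ed w.1.1.1.1.1))) :=
    Poly.flatMap (F := fun (w : (((Src × ℕ) × ℕ) × ℕ) × ℕ) v =>
      ((List.range (kS w.1.1.1.1 * kS w.1.1.1.1 + 1)).map (fun c =>
        ((w.1.1.1.2, w.1.1.2, w.1.2, w.2, v, c) : Lab))).filter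
        (valid (nS w.1.1.1.1) (kS w.1.1.1.1) (ed w.1.1.1.1.1)))
      (UPoly.add (upoly_nS g4) (UPoly.const 1)).range l5
  have l3 : Poly (fun w : ((Src × ℕ) × ℕ) × ℕ =>
      (List.range (nS w.1.1.1 + 1)).flatMap fun u => (List.range (nS w.1.1.1 + 1)).flatMap fun v =>
      ((List.range (kS w.1.1.1 * kS w.1.1.1 + 1)).map (fun c =>
        ((w.1.1.2, w.1.2, w.2, u, v, c) : Lab))).filter
        (valid (nS w.1.1.1) (kS w.1.1.1) (ed w.1.1.1.1))) :=
    Poly.flatMap (F := fun (w : ((Src × ℕ) × ℕ) × ℕ) u =>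
      (List.range (nS w.1.1.1 + 1)).flatMap fun v =>
      ((List.range (kS w.1.1.1 * kS w.1.1.1 + 1)).map (fun c =>
        ((w.1.1.2, w.1.2, w.2, u, v, c) : Lab))).filter
        (valid (nS w.1.1.1) (kS w.1.1.1) (ed w.1.1.1.1)))
      (UPoly.add (upoly_nS g3) (UPoly.const 1)).range l4
  have l2 : Poly (fun w : (Src × ℕ) × ℕ => (List.range (kS w.1.1)).flatMap fun j =>
      (List.range (nS w.1.1 + 1)).flatMap fun u => (List.range (nS w.1.1 + 1)).flatMap fun v =>
      ((List.range (kS w.1.1 * kS w.1.1 + 1)).map (fun c =>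
        ((w.1.2, w.2, j, u, v, c) : Lab))).filter
        (valid (nS w.1.1) (kS w.1.1) (ed w.1.1.1))) :=
    Poly.flatMap (F := fun (w : (Src × ℕ) × ℕ) j =>
      (List.range (nS w.1.1 + 1)).flatMap fun u => (List.range (nS w.1.1 + 1)).flatMap fun v =>
      ((List.range (kS w.1.1 * kS w.1.1 + 1)).map (fun c =>
        ((w.1.2, w.2, j, u, v, c) : Lab))).filter
        (valid (nS w.1.1) (kS w.1.1) (ed w.1.1.1)))
      (upoly_kS g2).range l3
  have l1 : Poly (fun w : Src × ℕ => (List.range (kS w.1)).flatMap fun i =>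
      (List.range (kS w.1)).flatMap fun j =>
      (List.range (nS w.1 + 1)).flatMap fun u => (List.range (nS w.1 + 1)).flatMap fun v =>
      ((List.range (kS w.1 * kS w.1 + 1)).map (fun c =>
        ((w.2, i, j, u, v, c) : Lab))).filter
        (valid (nS w.1) (kS w.1) (ed w.1.1))) :=
    Poly.flatMap (F := fun (w : Src × ℕ) i =>
      (List.range (kS w.1)).flatMap fun j =>
      (List.range (nS w.1 + 1)).flatMap fun u => (List.range (nS w.1 + 1)).flatMap fun v =>
      ((List.range (kS w.1 * kS w.1 + 1)).map (fun c =>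
        ((w.2, i, j, u, v, c) : Lab))).filter
        (valid (nS w.1) (kS w.1) (ed w.1.1)))
      (upoly_kS g1).range l2
  have l0 : Poly (fun z : Src => (List.range 5).flatMap fun h => (List.range (kS z)).flatMap fun i =>
      (List.range (kS z)).flatMap fun j =>
      (List.range (nS z + 1)).flatMap fun u => (List.range (nS z + 1)).flatMap fun v =>
      ((List.range (kS z * kS z + 1)).map (fun c =>
        ((h, i, j, u, v, c) : Lab))).filter
        (valid (nS z) (kS z) (ed z.1))) :=
    Poly.flatMap (F := fun (z : Src) h => (List.range (kS z)).flatMap fun i =>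
      (List.range (kS z)).flatMap fun j =>
      (List.range (nS z + 1)).flatMap fun u => (List.range (nS z + 1)).flatMap fun v =>
      ((List.range (kS z * kS z + 1)).map (fun c =>
        ((h, i, j, u, v, c) : Lab))).filter
        (valid (nS z) (kS z) (ed z.1)))
      (UPoly.range (UPoly.const (α := Src) 5)) l1
  exact Poly.cons (Poly.const sL) (Poly.cons (Poly.const tL) l0)

theorem poly_inst : Poly inst := by
  have hid : Poly (fun z : Src => z) := Poly.id
  have hc : Poly (fun z : Src => cmat (verts (nS z) (kS z) (ed z.1)) (col (nS z))) := by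
    refine Poly.map (F := fun (z : Src) a => (verts (nS z) (kS z) (ed z.1)).map fun b =>
      col (nS z) a b) poly_verts ?_
    exact Poly.map (F := fun (w : Src × Lab) b => col (nS w.1) w.2 b)
      (poly_verts.comp (Poly.fst Poly.id))
      (poly_col (z := fun w : (Src × Lab) × Lab => w.1.1) (Poly.fst (Poly.fst Poly.id))
        (Poly.snd (Poly.fst Poly.id)) (Poly.snd Poly.id))
  exact Poly.pair (Poly.ite (Poly.decide_le (Poly.snd hid) (Poly.length (Poly.fst hid))) hc
    (Poly.const _)) (Poly.pair (Poly.const 0) (Poly.pair (Poly.const 1)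
      (Poly.mul (Poly.snd hid) (Poly.snd hid))))

/-- the reduction -/
def alg (x : List Bool) : List Bool := bits (inst ((unbits Src x).getD ([], 0)))

theorem polyTime_alg : PolyTime alg := by
  refine polyTime_bits (g := fun x => inst ((unbits Src x).getD ([], 0))) ?_
  exact poly_inst.comp ((Poly.optCases (o := fun x => unbits Src x)
    (g := fun _ => (([], 0) : Src)) (h := fun _ I => I) poly_unbits (Poly.const _)
    (Poly.snd Poly.id)).congr fun x => by cases unbits Src x <;> rfl)

theorem alg_bits (z : Src) : alg (bits z) = bits (inst z) := by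
  unfold alg
  rw [unbits_bits, Option.getD_some]

end Pool.Agent.NPC.V11230.DSA

namespace Pool.Agent.Results.MP_959b39_lc.TwoTerminalsW1Hard

open Pool.Agent.NPC Pool.Agent.V11230.DS Pool.Agent.NPC.V11230.DSA Pool.Agent.H622R2

/-- **Dual Separator for Two Terminals is W[1]-hard**: there is a polynomial-time computable map
which sends each instance `(A, k)` of Clique (the graph with adjacency matrix `A`) to an instance
`(M, s, t, k²)` of Dual Separator for Two Terminals (the edge-bicoloured graph with matrix of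
colours `M`) with the same answer. -/
theorem result :
    ∃ f : List Bool → List Bool, PolyTime f ∧ ∀ (A : List (List Bool)) (k : ℕ),
      ∃ (M : List (List ℕ)) (s t : Fin M.length), s ≠ t ∧
        f (bits (A, k)) = bits (M, (s : ℕ), (t : ℕ), k * k) ∧
        (HasDualSep M s t (k * k) ↔ ¬ (matGraph A).CliqueFree k) := by
  refine ⟨alg, polyTime_alg, fun A k => ?_⟩
  by_cases hk : k ≤ A.length
  · obtain ⟨vs, hvs⟩ : ∃ vs, vs = verts A.length k (ed A) := ⟨_, rfl⟩
    have hlen : 2 ≤ (cmat vs (col A.length)).length := by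
      rw [cmat_length, hvs]
      unfold verts
      simp
    refine ⟨cmat vs (col A.length), ⟨0, by omega⟩, ⟨1, by omega⟩, by simp, ?_, ?_⟩
    · rw [alg_bits]
      unfold inst nS kS
      dsimp only
      rw [if_pos hk, min_eq_left hk, hvs]
    · have hs : lab vs (col A.length) ⟨0, by omega⟩ = sL := by
        subst hvs
        rfl
      have ht : lab vs (col A.length) ⟨1, by omega⟩ = tL := by
        subst hvs
        rfl
      rw [hasDualSep_iff (E := ed A) (ed_comm A) (hvs ▸ nodup_verts _ _ _)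
        (fun x => by rw [hvs]; exact mem_verts) hs ht, not_cliqueFree_iff']
  · refine ⟨[[0, 1], [1, 0]], ⟨0, by simp⟩, ⟨1, by simp⟩, by simp, ?_, ?_⟩
    · rw [alg_bits]
      unfold inst
      dsimp only
      rw [if_neg hk]
    · constructor
      · rintro ⟨S, -, ⟨h1, h2, h3⟩, -⟩
        exfalso
        have hadj : (colGraph [[0, 1], [1, 0]] 1).Adj ⟨0, by simp⟩ ⟨1, by simp⟩ :=
          ⟨by simp, rfl, rfl⟩
        obtain ⟨v, hv, hvS⟩ := h3 (SimpleGraph.Walk.cons hadj SimpleGraph.Walk.nil)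
        simp only [SimpleGraph.Walk.support_cons, SimpleGraph.Walk.support_nil, List.mem_cons,
          List.not_mem_nil, or_false] at hv
        rcases hv with rfl | rfl
        · exact h1 hvS
        · exact h2 hvS
      · intro h
        exfalso
        refine h (SimpleGraph.cliqueFree_of_card_lt ?_)
        rw [Fintype.card_fin]
        omega

end Pool.Agent.Results.MP_959b39_lc.TwoTerminalsW1Hard
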